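import Pool.Agent.EDG.Stmts

/-!
# Squad EDG, row REM (helper91)

The relation modulo `2 ^ s`.
-/

set_option autoImplicit false

namespace Pool.Agent.EDG.H91

open Polynomial Finset

theorem ev_h_pow {R : Type*} [CommRing R] (b : R) (s e : ℕ) (t : R) :
    ev b t (h (2 ^ s * e)) = ev b (it b t s) (h e) := by
  induction s generalizing t with
  | zero => simp [it_zero]
  | succ s ih =>
    rw [show 2 ^ (s + 1) * e = 2 * (2 ^ s * e) by ring, h_two_mul, ev_comp_F, ih, it_succ']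

theorem ev_Tha {R : Type*} [CommRing R] (b y : R) (m E : ℕ) (a : ℕ → ℕ → ℤ) :
    ev b y (Tha m E a) =
      ∑ j ∈ range m, ∑ e ∈ range E, (a j e : R) * (2 ^ j * aeval b (Q j) * ev b y (h e)) := by
  unfold Tha
  rw [map_sum]
  apply sum_congr rfl
  intro j _
  rw [map_sum]
  apply sum_congr rfl
  intro e _
  rw [map_mul, ev_C, map_mul, aeval_C]
  simp only [eq_intCast, algebraMap_int_eq]
  push_cast
  ring

theorem aeval_rho (g : ℤ[X]) (S : Type) [CommRing S] (ρ : ℤ[X] →+* S) (h0 : ρ g = 0) :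
    aeval (ρ X) g = 0 := by
  have h1 := hom_eval₂ g (C : ℤ →+* ℤ[X]) ρ X
  rw [eval₂_C_X, h0] at h1
  rw [aeval_def, h1]
  exact congrArg (fun φ => eval₂ φ (ρ X) g) (RingHom.ext_int _ _)

/-- The computation in a ring in which `2 ^ s = 0`. -/
theorem key (G : ℤ[X]) (m E s M i : ℕ) (hM : s ≤ M)
    (S : Type) [CommRing S] (b : S) (h2s : (2 : S) ^ s = 0)
    (hr1 : ∃ r : S, it b (-b) i = it b (b ^ (2 ^ (M + i))) s + 2 ^ s * r)
    (hr2 : ∃ r : S, aeval (b ^ (2 ^ (M + i))) G = 2 ^ M * r)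
    (V : ℕ → ℕ → ℕ → ℤ[X])
    (hV : ∀ (j e : ℕ) (t : S), ∃ r : S, 2 ^ j * aeval b (Q j) * ev b t (h (2 ^ s * e)) =
      ∑ l ∈ range s, (2 * b) ^ l * aeval t (V j e l) + 2 ^ s * r)
    (a : ℕ → ℕ → ℤ)
    (hdv : ∀ l < s, C ((2 : ℤ) ^ (s - l)) ∣
      (∑ j ∈ range m, ∑ e ∈ range E, C (a j e) * V j e l) %ₘ G) :
    ev b (it b (-b) i) (Tha m E a) = 0 := by
  have h2M : (2 : S) ^ M = 0 := by
    rw [show M = s + (M - s) by omega, pow_add, h2s, zero_mul]
  obtain ⟨r1, hr1⟩ := hr1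
  obtain ⟨r2, hr2⟩ := hr2
  rw [h2s, zero_mul, add_zero] at hr1
  rw [h2M, zero_mul] at hr2
  set τ : S := b ^ (2 ^ (M + i)) with hτ
  set W : ℕ → ℤ[X] := fun l => ∑ j ∈ range m, ∑ e ∈ range E, C (a j e) * V j e l with hW
  have hWv : ∀ l, aeval τ (W l) = aeval τ (W l %ₘ G) := by
    intro l
    have h1 : W l %ₘ G + G * (W l /ₘ G) = W l := modByMonic_add_div (W l) G
    calc aeval τ (W l) = aeval τ (W l %ₘ G + G * (W l /ₘ G)) := by rw [h1]
      _ = aeval τ (W l %ₘ G) := by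
          rw [map_add, map_mul, hr2, zero_mul, add_zero]
  rw [hr1, ev_Tha]
  have h1 : ∀ j ∈ range m, ∀ e ∈ range E,
      (a j e : S) * (2 ^ j * aeval b (Q j) * ev b (it b τ s) (h e)) =
        ∑ l ∈ range s, (2 * b) ^ l * aeval τ (C (a j e) * V j e l) := by
    intro j _ e _
    obtain ⟨r3, hr3⟩ := hV j e τ
    rw [h2s, zero_mul, add_zero, ev_h_pow] at hr3
    rw [hr3, mul_sum]
    apply sum_congr rfl
    intro l _
    rw [map_mul, aeval_C]
    simp only [algebraMap_int_eq, eq_intCast]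
    ring
  have h3 : ∀ l ∈ range s, (2 * b) ^ l * aeval τ (W l) =
      ∑ j ∈ range m, ∑ e ∈ range E, (2 * b) ^ l * aeval τ (C (a j e) * V j e l) := by
    intro l _
    simp only [hW, map_sum, mul_sum]
  have h2 : ∑ j ∈ range m, ∑ e ∈ range E, ∑ l ∈ range s,
      (2 * b) ^ l * aeval τ (C (a j e) * V j e l) =
        ∑ l ∈ range s, (2 * b) ^ l * aeval τ (W l) := by
    rw [sum_congr rfl h3, sum_comm (s := range s) (t := range m)]
    apply sum_congr rfl
    intro j _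
    rw [sum_comm]
  rw [sum_congr rfl fun j hj => sum_congr rfl (h1 j hj), h2]
  apply sum_eq_zero
  intro l hl
  obtain ⟨w, hw⟩ := hdv l (mem_range.mp hl)
  rw [hWv, hw, map_mul, aeval_C, map_pow, map_ofNat, mul_pow]
  have h4 : (2 : S) ^ l * 2 ^ (s - l) = 0 := by
    rw [← pow_add, show l + (s - l) = s by have := mem_range.mp hl; omega, h2s]
  calc (2 : S) ^ l * b ^ l * (2 ^ (s - l) * aeval τ w)
      = ((2 : S) ^ l * 2 ^ (s - l)) * (b ^ l * aeval τ w) := by ring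
    _ = 0 := by rw [h4, zero_mul]

theorem rem : RemStmt := by
  intro cng grf exp pig qdg n g hc m E B s hmB hcount
  obtain ⟨M, hM, hcng⟩ := cng n g hc s
  obtain ⟨G, hGm, hGd, hG⟩ := grf g hc.monic M
  have hV := fun j e => exp s j (Q j) (2 ^ s * e) (le_of_eq (qdg j).1)
  choose V hV using hV
  set W : (ℕ → ℕ → ℤ) → ℕ → ℤ[X] := fun a l =>
    ∑ j ∈ range m, ∑ e ∈ range E, C (a j e) * V j e l with hW
  set v : (ℕ → ℕ → ℤ) → ℕ → ℤ[X] := fun a l => W a l %ₘ G with hv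
  have hvadd : ∀ a a', v (a - a') = v a - v a' := by
    intro a a'
    funext l
    have h1 : W (a - a') l = W a l - W a' l := by
      simp only [hW, Pi.sub_apply, C_sub, sub_mul, sum_sub_distrib]
    show W (a - a') l %ₘ G = W a l %ₘ G - W a' l %ₘ G
    rw [h1, sub_modByMonic]
  obtain ⟨a, ha1, ha2, ha3⟩ := pig m E B s g.natDegree hmB hcount v hvadd
  refine ⟨a, ha1, ha2, fun i => ?_⟩
  -- divisibility of the remainders
  have hdv : ∀ l < s, C ((2 : ℤ) ^ (s - l)) ∣ v a l := by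
    intro l hl
    rw [C_dvd_iff_dvd_coeff]
    intro k
    rcases lt_or_ge k g.natDegree with hk | hk
    · have := ha3 l hl k hk
      simpa using this
    · have h1 : (v a l).coeff k = 0 := by
        apply coeff_eq_zero_of_degree_lt
        calc (v a l).degree < G.degree := degree_modByMonic_lt _ hGm
          _ = (G.natDegree : WithBot ℕ) := degree_eq_natDegree hGm.ne_zero
          _ ≤ (k : WithBot ℕ) := by
              rw [hGd]; exact_mod_cast hk
      rw [h1]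
      exact dvd_zero _
  -- the ring `ℤ[X] / (g, 2 ^ s)`
  let J : Ideal ℤ[X] := Ideal.span {g, C ((2 : ℤ) ^ s)}
  have hb := aeval_rho g _ (Ideal.Quotient.mk J)
    (Ideal.Quotient.eq_zero_iff_mem.mpr (Ideal.subset_span (by simp)))
  have h2s : (2 : ℤ[X] ⧸ J) ^ s = 0 := by
    have h1 : Ideal.Quotient.mk J (C ((2 : ℤ) ^ s)) = 0 :=
      Ideal.Quotient.eq_zero_iff_mem.mpr (Ideal.subset_span (by simp))
    rw [C_pow, map_pow, map_ofNat C, map_ofNat (Ideal.Quotient.mk J)] at h1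
    exact h1
  have hk := key G m E s M i hM (ℤ[X] ⧸ J) (Ideal.Quotient.mk J X) h2s
    (hcng _ _ hb i) (hG _ _ hb i) V (fun j e t => hV j e _ _ t) a hdv
  have h5 : Ideal.Quotient.mk J (ev (X : ℤ[X]) (Yp i) (Tha m E a)) = 0 := by
    rw [ev_map, Yp, it_map, map_neg]
    exact hk
  obtain ⟨u, r, hur⟩ := Ideal.mem_span_pair.mp (Ideal.Quotient.eq_zero_iff_mem.mp h5)
  exact ⟨r, u, by rw [← hur]; ring⟩

end Pool.Agent.EDG.H91
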